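import Pool.Agent.H43.PS.Targets

/-! # AMG: the scalar inequality (helper55) -/

namespace H43.PS

open Matrix Finset

theorem AMG_aux (p a b : ℝ) (hp1 : 1 < p) (hp2 : p < 2) (ha : 0 < a) (hb : 0 < b) :
    p * (a ^ 2 * b ^ (2 * p - 2)) ≤
      (2 - p) * a ^ (2 * p) + (p - 1) * (a * b ^ (2 * p - 1)) + (p - 1) * (b * a ^ (2 * p - 1)) := by
  have hp0 : 0 < p := by linarith
  have h := Real.geom_mean_le_arith_mean3_weighted (w₁ := (2 - p) / p) (w₂ := (p - 1) / p)
    (w₃ := (p - 1) / p) (p₁ := a ^ (2 * p)) (p₂ := a * b ^ (2 * p - 1)) (p₃ := b * a ^ (2 * p - 1))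
    (by apply div_nonneg <;> linarith) (by apply div_nonneg <;> linarith)
    (by apply div_nonneg <;> linarith) (by positivity) (by positivity) (by positivity)
    (by field_simp; ring)
  have h1 : (a ^ (2 * p)) ^ ((2 - p) / p) = a ^ (2 * (2 - p)) := by
    rw [← Real.rpow_mul ha.le]
    congr 1
    field_simp
  have h2 : (a * b ^ (2 * p - 1)) ^ ((p - 1) / p) =
      a ^ ((p - 1) / p) * b ^ ((2 * p - 1) * ((p - 1) / p)) := by
    rw [Real.mul_rpow ha.le (by positivity), ← Real.rpow_mul hb.le]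
  have h3 : (b * a ^ (2 * p - 1)) ^ ((p - 1) / p) =
      b ^ ((p - 1) / p) * a ^ ((2 * p - 1) * ((p - 1) / p)) := by
    rw [Real.mul_rpow hb.le (by positivity), ← Real.rpow_mul ha.le]
  have h4 : a ^ (2 * (2 - p)) * (a ^ ((p - 1) / p) * b ^ ((2 * p - 1) * ((p - 1) / p))) *
      (b ^ ((p - 1) / p) * a ^ ((2 * p - 1) * ((p - 1) / p))) = a ^ 2 * b ^ (2 * p - 2) := by
    have e1 : a ^ (2 * (2 - p)) * a ^ ((p - 1) / p) * a ^ ((2 * p - 1) * ((p - 1) / p)) = a ^ 2 := by
      rw [← Real.rpow_add ha, ← Real.rpow_add ha, ← Real.rpow_natCast a 2]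
      congr 1
      field_simp
      push_cast
      ring
    have e2 : b ^ ((2 * p - 1) * ((p - 1) / p)) * b ^ ((p - 1) / p) = b ^ (2 * p - 2) := by
      rw [← Real.rpow_add hb]
      congr 1
      field_simp
      ring
    calc a ^ (2 * (2 - p)) * (a ^ ((p - 1) / p) * b ^ ((2 * p - 1) * ((p - 1) / p))) *
      (b ^ ((p - 1) / p) * a ^ ((2 * p - 1) * ((p - 1) / p)))
        = (a ^ (2 * (2 - p)) * a ^ ((p - 1) / p) * a ^ ((2 * p - 1) * ((p - 1) / p))) *
          (b ^ ((2 * p - 1) * ((p - 1) / p)) * b ^ ((p - 1) / p)) := by ring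
      _ = _ := by rw [e1, e2]
  rw [h1, h2, h3, h4] at h
  have h5 := mul_le_mul_of_nonneg_left h hp0.le
  calc p * (a ^ 2 * b ^ (2 * p - 2)) ≤ _ := h5
    _ = _ := by field_simp

theorem AMG : T_AMG := by
  intro p a b hp1 hp2 ha hb
  rcases ha.eq_or_lt with h | ha
  · subst h
    have e1 : (0 : ℝ) ^ (2 * p) = 0 := Real.zero_rpow (by linarith)
    have e2 : (0 : ℝ) ^ (2 * p - 1) = 0 := Real.zero_rpow (by linarith)
    rw [e1, e2]
    rcases hb.eq_or_lt with h | hb
    · subst h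
      rw [e1, e2]
      simp
    · have e3 : b ^ (2 * p) = b * b ^ (2 * p - 1) := by
        rw [show (2 * p : ℝ) = 1 + (2 * p - 1) by ring, Real.rpow_add hb, Real.rpow_one]
        ring_nf
      have e4 : b ^ (2 * p) = b ^ (2 * p - 2) * b ^ 2 := by
        rw [← Real.rpow_natCast b 2, ← Real.rpow_add hb]
        congr 1
        push_cast
        ring
      have e5 : p * (b ^ (2 * p - 2) * ((0 : ℝ) ^ 2 - b ^ 2)) = - (p * b ^ (2 * p)) := by
        rw [e4]; ring
      rw [e5]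
      have e6 : (p - 1) * (((0 : ℝ) - b) * (0 - b ^ (2 * p - 1))) = (p - 1) * b ^ (2 * p) := by
        rw [e3]; ring
      rw [e6]
      linarith
  · rcases hb.eq_or_lt with h | hb
    · subst h
      have e1 : (0 : ℝ) ^ (2 * p) = 0 := Real.zero_rpow (by linarith)
      have e2 : (0 : ℝ) ^ (2 * p - 1) = 0 := Real.zero_rpow (by linarith)
      have e3 : (0 : ℝ) ^ (2 * p - 2) = 0 := Real.zero_rpow (by linarith)
      rw [e1, e2, e3]
      have e4 : a * a ^ (2 * p - 1) = a ^ (2 * p) := by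
        rw [show (2 * p : ℝ) = 1 + (2 * p - 1) by ring, Real.rpow_add ha, Real.rpow_one]
        ring_nf
      have e5 : 0 < a ^ (2 * p) := by positivity
      have e6 : (p - 1) * ((a - 0) * (a ^ (2 * p - 1) - 0)) = (p - 1) * a ^ (2 * p) := by
        rw [← e4]; ring
      rw [e6]
      nlinarith
    · have h := AMG_aux p a b hp1 hp2 ha hb
      have e3 : b ^ (2 * p) = b * b ^ (2 * p - 1) := by
        rw [show (2 * p : ℝ) = 1 + (2 * p - 1) by ring, Real.rpow_add hb, Real.rpow_one]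
        ring_nf
      have e4 : b ^ (2 * p) = b ^ (2 * p - 2) * b ^ 2 := by
        rw [← Real.rpow_natCast b 2, ← Real.rpow_add hb]
        congr 1
        push_cast
        ring
      have e7 : a ^ (2 * p) = a * a ^ (2 * p - 1) := by
        rw [show (2 * p : ℝ) = 1 + (2 * p - 1) by ring, Real.rpow_add ha, Real.rpow_one]
        ring_nf
      have e8 : (p - 1) * ((a - b) * (a ^ (2 * p - 1) - b ^ (2 * p - 1))) =
          (p - 1) * (a ^ (2 * p) + b ^ (2 * p) - a * b ^ (2 * p - 1) - b * a ^ (2 * p - 1)) := by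
        rw [e7, e3]; ring
      have e9 : p * (b ^ (2 * p - 2) * (a ^ 2 - b ^ 2)) =
          p * (a ^ 2 * b ^ (2 * p - 2)) - p * b ^ (2 * p) := by
        rw [e4]; ring
      rw [e8, e9]
      nlinarith

end H43.PS
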