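import Pool.Agent.H43.PS.Targets

/-! # NRM: normalisation of a psd factorisation (helper55) -/

namespace H43.PS

open Matrix Finset

theorem NRM (hDTM : T_DTM) (hDTD : T_DTD) (hSQR : T_SQR) : T_NRM := by
  intro κ α β _ _ _ _ P S m hm hP hS hPS
  rcases isEmpty_or_nonempty α with hα | hα
  · refine ⟨P, fun _ => 0, hP, fun _ => PosSemidef.zero, fun a => (hα.false a).elim,
      fun a => (hα.false a).elim, fun b => ?_⟩
    simp only [trace_zero]
    linarith
  · have hT0 : ∀ b, 0 ≤ (S b).trace := fun b => (hS b).trace_nonneg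
    obtain ⟨η, hη, hηS⟩ : ∃ η : ℝ, 0 < η ∧ ∀ b, η * (S b).trace ≤ m := by
      refine ⟨m / (1 + ∑ b, (S b).trace), ?_, fun b => ?_⟩
      · apply div_pos hm
        have : 0 ≤ ∑ b, (S b).trace := sum_nonneg (fun b _ => hT0 b)
        linarith
      · have h0 : 0 ≤ ∑ b, (S b).trace := sum_nonneg (fun b _ => hT0 b)
        have h1 : (S b).trace ≤ ∑ b, (S b).trace :=
          single_le_sum (fun b _ => hT0 b) (mem_univ b)
        have h2 : 0 < 1 + ∑ b, (S b).trace := by linarith
        rw [div_mul_eq_mul_div, div_le_iff₀ h2]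
        nlinarith
    have hone : (η • (1 : Matrix κ κ ℝ)).PosDef := PosDef.one.smul hη
    have hPt : ∀ a, (P a + η • (1 : Matrix κ κ ℝ)).PosDef := fun a =>
      PosDef.posSemidef_add (hP a) hone
    obtain ⟨w, hw0, hw1, hmax⟩ := hDTM κ α (fun a => P a + η • (1 : Matrix κ κ ℝ)) hPt
    obtain ⟨S₀, hS₀⟩ : ∃ S₀ : Matrix κ κ ℝ, S₀ = ∑ a, w a • (P a + η • (1 : Matrix κ κ ℝ)) :=
      ⟨_, rfl⟩
    have hS₀' : S₀ = ∑ a, w a • P a + η • (1 : Matrix κ κ ℝ) := by
      rw [hS₀]
      simp only [smul_add, sum_add_distrib]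
      rw [← Finset.sum_smul, hw1, one_smul]
    have hS₀pd : S₀.PosDef := by
      rw [hS₀']
      apply PosDef.posSemidef_add _ hone
      exact Matrix.posSemidef_sum _ (fun a _ => (hP a).smul (hw0 a))
    have hkey : ∀ a, (S₀⁻¹ * (P a + η • (1 : Matrix κ κ ℝ))).trace ≤ Fintype.card κ := by
      intro a
      apply hDTD κ S₀ _ hS₀pd (hPt a).isHermitian
      intro t ht0 ht1
      classical
      have h1 := hmax (fun c => (1 - t) * w c + t * (if c = a then 1 else 0))
        (fun c => by
          have := hw0 c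
          split_ifs <;> nlinarith)
        (by
          rw [sum_add_distrib, ← mul_sum, ← mul_sum, hw1]
          simp)
      have h2 : ∑ c, ((1 - t) * w c + t * (if c = a then 1 else 0)) •
          (P c + η • (1 : Matrix κ κ ℝ)) = S₀ + t • ((P a + η • (1 : Matrix κ κ ℝ)) - S₀) := by
        have h3 : ∀ c, ((1 - t) * w c + t * (if c = a then 1 else 0)) •
            (P c + η • (1 : Matrix κ κ ℝ)) = (1 - t) • (w c • (P c + η • (1 : Matrix κ κ ℝ))) +
              t • (if c = a then (P c + η • (1 : Matrix κ κ ℝ)) else 0) := by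
          intro c
          rw [add_smul, mul_smul, mul_smul]
          split_ifs <;> simp
        rw [Finset.sum_congr rfl (fun c _ => h3 c), sum_add_distrib, ← Finset.smul_sum,
          ← Finset.smul_sum, Finset.sum_ite_eq' univ a, ← hS₀]
        simp only [mem_univ, if_true]
        rw [smul_sub, sub_smul, one_smul]
        abel
      rw [h2, ← hS₀] at h1
      exact h1
    obtain ⟨A, hA, hAA⟩ := hSQR κ S₀ hS₀pd.posSemidef
    have hdet : IsUnit A.det := by
      have h1 : A.det * A.det = S₀.det := by rw [← det_mul, hAA]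
      have h2 : 0 < S₀.det := hS₀pd.det_pos
      rw [← h1] at h2
      exact isUnit_iff_ne_zero.mpr (fun h => by rw [h] at h2; simp at h2)
    have hAi : A * A⁻¹ = 1 := mul_nonsing_inv A hdet
    have hiA : A⁻¹ * A = 1 := nonsing_inv_mul A hdet
    have hAH : Aᴴ = A := hA.isHermitian
    have hAiH : (A⁻¹)ᴴ = A⁻¹ := hA.isHermitian.inv
    have hS₀i : S₀⁻¹ = A⁻¹ * A⁻¹ := by rw [← hAA, Matrix.mul_inv_rev]
    refine ⟨fun a => A⁻¹ * P a * A⁻¹, fun b => A * S b * A, ?_, ?_, ?_, ?_, ?_⟩
    · intro a
      have := (hP a).conjTranspose_mul_mul_same A⁻¹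
      rw [hAiH] at this
      exact this
    · intro b
      have := (hS b).conjTranspose_mul_mul_same A
      rw [hAH] at this
      exact this
    · intro a b
      have h1 : A⁻¹ * P a * A⁻¹ * (A * S b * A) = A⁻¹ * (P a * S b * A) := by
        calc A⁻¹ * P a * A⁻¹ * (A * S b * A) = A⁻¹ * P a * (A⁻¹ * A) * (S b * A) := by
              simp only [Matrix.mul_assoc]
          _ = _ := by rw [hiA]; simp only [Matrix.mul_assoc, Matrix.mul_one]
      rw [h1, trace_mul_comm, Matrix.mul_assoc, hAi, Matrix.mul_one]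
    · intro a
      have h1 : (A⁻¹ * P a * A⁻¹).trace = (S₀⁻¹ * P a).trace := by
        rw [trace_mul_comm, ← Matrix.mul_assoc, hS₀i]
      have h2 := hkey a
      rw [Matrix.mul_add, trace_add, Matrix.mul_smul, trace_smul, Matrix.mul_one] at h2
      have h3 : 0 ≤ (S₀⁻¹).trace := hS₀pd.posSemidef.inv.trace_nonneg
      rw [h1]
      have h4 : 0 ≤ η • (S₀⁻¹).trace := by
        rw [smul_eq_mul]; positivity
      linarith
    · intro b
      have h1 : (A * S b * A).trace = (S₀ * S b).trace := by
        rw [trace_mul_comm, ← Matrix.mul_assoc, hAA]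
      have h2 : (S₀ * S b).trace = ∑ a, w a * ((P a * S b).trace + η * (S b).trace) := by
        rw [hS₀, Matrix.sum_mul, trace_sum]
        apply sum_congr rfl
        intro a _
        rw [Matrix.smul_mul, trace_smul, Matrix.add_mul, trace_add, Matrix.smul_mul, trace_smul,
          Matrix.one_mul, smul_eq_mul, smul_eq_mul]
      rw [h1, h2]
      calc ∑ a, w a * ((P a * S b).trace + η * (S b).trace) ≤ ∑ a, w a * (2 * m) := by
            apply sum_le_sum
            intro a _
            apply mul_le_mul_of_nonneg_left _ (hw0 a)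
            have := hPS a b
            have := hηS b
            linarith
        _ = 2 * m := by rw [← sum_mul, hw1, one_mul]

end H43.PS
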